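import Pool.Agent.H76.LUD.Targets

/-!
# Computably enumerable sets in x are many-one reducible to the halting set
-/

set_option autoImplicit false

namespace Pool.Agent.H76.LUD

open Encodable
open Nat.Partrec (Code)
open Nat.Partrec.Code (eval)
open Pool.Agent.H69 Pool.Agent.H81.TM

theorem pf_CEI : T_CEI := by
  intro x B hB
  obtain ⟨φ, hφ, hB⟩ := hB
  have hφ' : Nat.RecursiveIn {((nat x : ℕ → ℕ) : ℕ →. ℕ)} φ := hφ
  obtain ⟨Φ, hΦ, -, hΦf⟩ := use_principle hφ'
  obtain ⟨c, hc⟩ := Code.exists_code.1 hΦ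
  have hcv : ∀ n s, (eval c (Nat.pair n (encode s))).Dom ↔ (Φ n s).Dom := by
    intro n s
    have h0 : eval c (Nat.pair n (encode s)) =
        (Part.bind (Part.ofOption (decode (Nat.pair n (encode s)) : Option (ℕ × List Bool)))
          fun a : ℕ × List Bool => (Φ a.1 a.2).map encode) := by rw [hc]
    have h1 : (decode (Nat.pair n (encode s)) : Option (ℕ × List Bool)) = some (n, s) := by
      simp
    rw [h0, h1]
    simp
  refine ⟨fun n => encode (Code.curry c n), ?_, ?_⟩
  · exact (Primrec.encode.comp (Code.primrec₂_curry.comp (Primrec.const c) Primrec.id)).to_comp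
  · intro n
    rw [hB n]
    unfold Halts
    simp only [Denumerable.ofNat_encode, Code.eval_curry, hcv]
    constructor
    · intro h
      obtain ⟨v, hv⟩ := Part.dom_iff_mem.1 h
      obtain ⟨k, hk⟩ := (hΦf n v).1 hv
      exact ⟨k, Part.dom_iff_mem.2 ⟨v, hk⟩⟩
    · rintro ⟨k, hk⟩
      obtain ⟨v, hv⟩ := Part.dom_iff_mem.1 hk
      exact Part.dom_iff_mem.2 ⟨v, (hΦf n v).2 ⟨k, hv⟩⟩

end Pool.Agent.H76.LUD
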