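import Pool.Agent.H76.LUD.Targets

/-!
# Turing reducibility is given by computable functionals
-/

set_option autoImplicit false

namespace Pool.Agent.H76.LUD

open Pool.Agent.H69 Pool.Agent.H81.TM

/-- a family of partial values which are all right and eventually defined gives a functional -/
theorem fn_of {g : List Bool → ℕ → Option Bool} {x y : ℕ → Bool}
    (h1 : ∀ n, ∃ t, (g (pre x t) n).isSome = true)
    (h2 : ∀ n t b, g (pre x t) n = some b → b = y n) : Fn g x y := by
  classical
  intro n
  refine ⟨Nat.find (h1 n), ?_, ?_⟩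
  · obtain ⟨b, hb⟩ := Option.isSome_iff_exists.1 (Nat.find_spec (h1 n))
    rw [hb, h2 n _ b hb]
  · intro s hs
    have h3 := Nat.find_min (h1 n) hs
    cases h4 : g (pre x s) n with
    | none => rfl
    | some b => rw [h4] at h3; simp at h3

theorem pf_FNC : T_FNC := by
  intro x y hxy
  have h0 : Rc {((nat x : ℕ → ℕ) : ℕ →. ℕ)} (nat y) := hxy
  obtain ⟨e, he⟩ := th_complete h0
  refine ⟨fun l n => (th e l n).map (fun v => decide (v = 1)), ?_, ?_⟩
  · have hp : Primrec (fun p : List Bool × ℕ => (th e p.1 p.2).map (fun v => decide (v = 1))) := by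
      refine Primrec.option_map (f := fun p : List Bool × ℕ => th e p.1 p.2)
        (g := fun _ v => decide (v = 1)) ?_ ?_
      · exact th_primrec.comp (Primrec.pair (Primrec.const e) (Primrec.pair Primrec.fst Primrec.snd))
      · exact ((Primrec.eq (α := ℕ)).decide.comp Primrec.snd (Primrec.const 1)).to₂
    exact hp.to_comp
  · refine fn_of ?_ ?_
    · intro n
      obtain ⟨t, ht⟩ := he n
      exact ⟨t, by simp [ht]⟩
    · intro n t b hb
      obtain ⟨t', ht'⟩ := he n
      rw [Option.map_eq_some_iff] at hb
      obtain ⟨v, hv, rfl⟩ := hb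
      have h1 := th_mono (pre_prefix x (le_max_left t t')) hv
      have h2 := th_mono (pre_prefix x (le_max_right t t')) ht'
      rw [h1] at h2
      rw [Option.some.inj h2]
      unfold nat
      cases y n <;> simp

end Pool.Agent.H76.LUD
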