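import Pool.Agent.H76.LUD.Targets

/-!
# Locally uniform functions: assembly
-/

set_option autoImplicit false

namespace Pool.Agent.H76.LUD

open Pool.Agent.H69 Pool.Agent.H81.TM

theorem leM_refl (x : ℕ → Bool) : LeM x x := ⟨id, Computable.id, fun _ => rfl⟩

theorem leM_trans {x y z : ℕ → Bool} (h : LeM x y) (h' : LeM y z) : LeM x z := by
  obtain ⟨r, hr, h1⟩ := h
  obtain ⟨s, hs, h2⟩ := h'
  exact ⟨fun n => s (r n), hs.comp hr, fun n => by rw [h1, h2]⟩

/-- a locally uniform function is invariant -/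
theorem inv_of_loc (hF : T_FNC) {c0 : ℕ → Bool} {f : (ℕ → Bool) → (ℕ → Bool)}
    (h : LocUnif c0 f) (x y : ℕ → Bool) (hx : LeT c0 x) (hxy : EqT x y) : EqM (f x) (f y) := by
  obtain ⟨g, hg, hg1⟩ := hF x y hxy.2
  obtain ⟨g', hg', hg1'⟩ := hF y x hxy.1
  obtain ⟨N, ρ, ρ', hρ, hρ', hN⟩ := h g g' hg hg' x y hx hg1 hg1'
  have h1 := hN x y ⟨leT_refl x, leT_refl x⟩ (fun _ _ => rfl) hg1 hg1'
  exact ⟨⟨ρ, hρ, fun n => (h1 n).1⟩, ⟨ρ', hρ', fun n => (h1 n).2⟩⟩

theorem cs_dl (n : ℕ) : cs false (dl n) = dl (n + 1) := by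
  funext i
  unfold cs dl
  by_cases h : i = 0
  · subst h
    simp
  · rw [if_neg h]
    have : (i - 1 = n) ↔ (i = n + 1) := by omega
    simp [this]

theorem cs_zero : cs false (fun _ => false) = fun _ => false := by
  funext i
  unfold cs
  by_cases h : i = 0 <;> simp [h]

theorem join_dl_below (X : ℕ → Bool) (N n : ℕ) (h : N ≤ n) :
    ∀ i < N, join X (dl n) i = join X (fun _ => false) i := by
  intro i hi
  unfold join dl
  by_cases h0 : i % 2 = 0
  · simp [h0]
  · simp only [h0, if_false]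
    have : ¬ (i / 2 = n) := by omega
    simp [this]

theorem compIter {ρ : ℕ → ℕ} (hρ : Computable ρ) :
    Computable (fun p : ℕ × ℕ => ρ^[p.1] p.2) := by
  have h : Computable (fun p : ℕ × ℕ => Nat.rec (motive := fun _ => ℕ) p.2
      (fun _ IH => ρ IH) p.1) := by
    refine Computable.nat_rec (f := fun p : ℕ × ℕ => p.1) (g := fun p : ℕ × ℕ => p.2)
      (h := fun _ (q : ℕ × ℕ) => ρ q.2) Computable.fst Computable.snd ?_
    exact (hρ.comp (Computable.snd.comp Computable.snd)).to₂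
  refine h.of_eq ?_
  rintro ⟨n, k⟩
  show Nat.rec (motive := fun _ => ℕ) k (fun _ IH => ρ IH) n = ρ^[n] k
  induction n with
  | zero => rfl
  | succ n ih => rw [Function.iterate_succ_apply', ← ih]

theorem pf_LUF (hDi : T_DIC) (hF : T_FNC) (hM : T_MSH) (hB : T_PSB) (hP : T_PSF) (hA : T_AVN)
    (hC : T_CEI) (hG : T_DEG) : T_LUF := by
  intro c0 f hdet hloc
  rcases hDi c0 f hdet (fun x y hx _ hxy => inv_of_loc hF hloc x y hx hxy) with h | h
  · obtain ⟨c, hc⟩ := h
    exact ⟨c, Or.inl hc⟩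
  obtain ⟨k, s, Z, a, b, hZl, hZd, hZ⟩ := h
  obtain ⟨d, hd⟩ := hP Z hZl
  obtain ⟨g, hg, hg1⟩ := hd c0
  obtain ⟨h, hh, hh1⟩ := hB Z a b hZd
  obtain ⟨gM, hM', hgM, hhM, hM1⟩ := hM
  have key : ∀ x, LeT (join c0 d) x → ∀ B, CeIn x B → ∃ ρ : ℕ → ℕ, Computable ρ ∧
      ∀ i, (f x (ρ i) = s ↔ B i = true) := by
    intro x hx B hBx
    obtain ⟨r, hr, hr1⟩ := hC x B hBx
    obtain ⟨X, hX⟩ : ∃ X, X = join (join c0 d) x := ⟨_, rfl⟩
    have hz0 : ∀ m, LeT c0 (join X m) := by
      intro m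
      rw [hX]
      exact hG.1 c0 d x m
    -- local uniformity for Psi
    obtain ⟨N1, ρ1, ρ1', hρ1, hρ1', hN1⟩ := hloc g h hg hh (join X (fun _ => false))
      (Z (join (av x (fun _ => false)) (join X (fun _ => false)))) (hz0 _)
      (by rw [hX]; exact hg1 x _) (hh1 _ _)
    -- local uniformity for the shift
    obtain ⟨N2, ρ2, ρ2', hρ2, hρ2', hN2⟩ := hloc gM hM' hgM hhM (join X (fun _ => false))
      (join X (fun _ => false)) (hz0 _)
      (by have := (hM1 X (fun _ => false)).1; rwa [cs_zero] at this)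
      (by have := (hM1 X (fun _ => false)).2; rwa [cs_zero] at this)
    obtain ⟨N, hN⟩ : ∃ N, N = max N1 N2 := ⟨_, rfl⟩
    have hPsi : ∀ n, N ≤ n →
        f (Z (join (av x (dl n)) (join X (dl n)))) k = f (join X (dl n)) (ρ1' k) := by
      intro n hn
      refine (hN1 (join X (dl n)) _ (hG.2.1 X n) (join_dl_below X N1 n (by omega)) ?_
        (hh1 (av x (dl n)) (join X (dl n))) k).2
      rw [hX]
      exact hg1 x (dl n)
    have hSh : ∀ n, N ≤ n → ∀ i, f (join X (dl (n + 1))) i = f (join X (dl n)) (ρ2' i) := by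
      intro n hn i
      have h1 := (hM1 X (dl n)).1
      have h2 := (hM1 X (dl n)).2
      rw [cs_dl] at h1 h2
      exact (hN2 (join X (dl n)) _ (hG.2.1 X n) (join_dl_below X N2 n (by omega)) h1 h2 i).2
    have hIt : ∀ j i, f (join X (dl (N + j))) i = f (join X (dl N)) (ρ2'^[j] i) := by
      intro j
      induction j with
      | zero => intro i; rfl
      | succ j ih =>
        intro i
        have h1 := hSh (N + j) (by omega) i
        have h2 : N + (j + 1) = N + j + 1 := by omega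
        rw [h2, h1, ih, Function.iterate_succ_apply]
    -- the value at N is reducible to f x
    obtain ⟨ρ3, hρ3, h3⟩ : LeM (f (join X (dl N))) (f x) := by
      have h1 : EqT (join X (dl N)) x := by
        rw [hX]
        exact hG.2.2.1 _ _ _ hx
      exact (inv_of_loc hF hloc _ _ (hz0 _) h1).1
    refine ⟨fun i => ρ3 (ρ2'^[Nat.pair N (r i) - N] (ρ1' k)), ?_, ?_⟩
    · refine hρ3.comp ?_
      have h1 : Computable (fun i => Nat.pair N (r i) - N) := by
        refine Computable.comp (f := fun m => m - N) (Primrec.nat_sub.comp Primrec.id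
          (Primrec.const N)).to_comp ?_
        exact Primrec₂.natPair.to_comp.comp (Computable.const N) hr
      exact (compIter hρ2').comp (h1.pair (Computable.const (ρ1' k)))
    · intro i
      show f x (ρ3 (ρ2'^[Nat.pair N (r i) - N] (ρ1' k))) = s ↔ B i = true
      have hle : N ≤ Nat.pair N (r i) := Nat.left_le_pair N (r i)
      obtain ⟨n, hn⟩ : ∃ n, n = Nat.pair N (r i) := ⟨_, rfl⟩
      rw [← hn] at hle ⊢
      have h4 : n.unpair.2 = r i := by rw [hn, Nat.unpair_pair]
      have h5 : f x (ρ3 (ρ2'^[n - N] (ρ1' k))) =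
          f (Z (join (av x (dl n)) (join X (dl n)))) k := by
        rw [hPsi n hle, ← h3, ← hIt (n - N) (ρ1' k)]
        have : N + (n - N) = n := by omega
        rw [this]
      rw [h5, hZ, hr1 i, ← h4, ← hA x n]
      constructor
      · rintro ⟨q, hq⟩
        rw [join_even] at hq
        exact ⟨q, hq⟩
      · rintro ⟨q, hq⟩
        exact ⟨q, by rw [join_even]; exact hq⟩
  refine ⟨join c0 d, ?_⟩
  cases s with
  | true =>
    refine Or.inr (Or.inl ?_)
    intro x hx B hBx
    obtain ⟨ρ, hρ, h1⟩ := key x hx B hBx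
    refine ⟨ρ, hρ, fun i => ?_⟩
    have h2 := h1 i
    cases hb : B i <;> cases hf : f x (ρ i) <;> simp_all
  | false =>
    refine Or.inr (Or.inr ?_)
    intro x hx B hBx
    obtain ⟨ρ, hρ, h1⟩ := key x hx B hBx
    refine ⟨ρ, hρ, fun i => ?_⟩
    have h2 := h1 i
    unfold compl
    cases hb : B i <;> cases hf : f x (ρ i) <;> simp_all

end Pool.Agent.H76.LUD
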