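import Pool.Agent.H76.LUD.Targets

/-!
# Functions with f x Turing reducible to x
-/

set_option autoImplicit false

namespace Pool.Agent.H76.LUD

open Encodable
open Pool.Agent.H69 Pool.Agent.H81.TM

/-- the points `y` for which program `e` computes `f y` from `y` -/
def Ae (f : (ℕ → Bool) → (ℕ → Bool)) (e : ℕ) : Set (ℕ → Bool) :=
  {y | ∀ n, ∃ t, th e (pre y t) n = some (f y n).toNat}

/-- the digits of II after the first `d + 1` -/
def tlI (d : ℕ) (α : ℕ → Bool) : ℕ → Bool := fun n => α (2 * (d + 1 + n) + 1)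

/-- the payoff set of the regressive game -/
def Wr (f : (ℕ → Bool) → (ℕ → Bool)) (e : ℕ) : Set (ℕ → Bool) :=
  {α | ∃ d, (∀ i < d, α (2 * i + 1) = true) ∧ α (2 * d + 1) = false ∧ tlI d α ∈ Ae f e ∧
    ∀ n, ∃ t, th d (pre (tlI d α) t) (Nat.pair d n) = some (α (2 * n)).toNat}

/-- `1^d 0 y` -/
def qd (d : ℕ) (y : ℕ → Bool) : ℕ → Bool := fun i =>
  if i < d then true else if i = d then false else y (i - (d + 1))

/-! ### Measurability -/

theorem isOpen_dep {S : Set (ℕ → Bool)} (N : ℕ)
    (h : ∀ α α' : ℕ → Bool, (∀ i < N, α i = α' i) → α ∈ S → α' ∈ S) : IsOpen S := by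
  rw [isOpen_iff_mem_nhds]
  intro α hα
  have h1 : ∀ᶠ α' in nhds α, ∀ i ∈ Finset.range N, α' i = α i := by
    rw [Filter.eventually_all_finset]
    intro i _
    have hc : Continuous (fun q : ℕ → Bool => q i) := continuous_apply i
    exact ((isOpen_discrete {α i}).preimage hc).mem_nhds rfl
  filter_upwards [h1] with α' hα'
  exact h α α' (fun i hi => (hα' i (Finset.mem_range.2 hi)).symm) hα

theorem pre_congr {x x' : ℕ → Bool} {t : ℕ} (h : ∀ i < t, x i = x' i) : pre x t = pre x' t := by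
  unfold pre
  refine List.map_congr_left ?_
  intro i hi
  exact h i (List.mem_range.1 hi)

theorem pre_tlI {d t : ℕ} {α α' : ℕ → Bool} (h : ∀ i < 2 * (d + 1 + t) + 1, α i = α' i) :
    pre (tlI d α) t = pre (tlI d α') t := by
  refine pre_congr ?_
  intro i hi
  exact h _ (by omega)

theorem continuous_tlI (d : ℕ) : Continuous (tlI d) :=
  continuous_pi fun n => continuous_apply (2 * (d + 1 + n) + 1)

theorem meas_Wr (f : (ℕ → Bool) → (ℕ → Bool)) (e : ℕ) :
    @MeasurableSet (ℕ → Bool) (Gam f) (Wr f e) := by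
  letI : MeasurableSpace (ℕ → Bool) := Gam f
  have hO : ∀ S : Set (ℕ → Bool), IsOpen S → MeasurableSet S := fun S hS =>
    MeasurableSpace.measurableSet_generateFrom (Or.inl hS)
  have hf : ∀ (d n : ℕ) (b : Bool), MeasurableSet {α : ℕ → Bool | f (tlI d α) n = b} := by
    intro d n b
    have h1 : MeasurableSet {α : ℕ → Bool | f (tlI d α) n = true} :=
      MeasurableSpace.measurableSet_generateFrom (Or.inr ⟨tlI d, n, continuous_tlI d, rfl⟩)
    cases b
    · have h2 : {α : ℕ → Bool | f (tlI d α) n = false} = {α | f (tlI d α) n = true}ᶜ := by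
        ext x
        simp
      rw [h2]
      exact h1.compl
    · exact h1
  have hAe : ∀ d, MeasurableSet {α : ℕ → Bool | tlI d α ∈ Ae f e} := by
    intro d
    have h1 : {α : ℕ → Bool | tlI d α ∈ Ae f e} = ⋂ n, ⋃ t, ⋃ b : Bool,
        ({α : ℕ → Bool | th e (pre (tlI d α) t) n = some b.toNat} ∩
          {α | f (tlI d α) n = b}) := by
      ext α
      simp only [Ae, Set.mem_setOf_eq, Set.mem_iInter, Set.mem_iUnion, Set.mem_inter_iff]
      constructor
      · intro h n
        obtain ⟨t, ht⟩ := h n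
        exact ⟨t, _, ht, rfl⟩
      · intro h n
        obtain ⟨t, b, ht, hb⟩ := h n
        exact ⟨t, by rw [hb]; exact ht⟩
    rw [h1]
    refine MeasurableSet.iInter fun n => MeasurableSet.iUnion fun t =>
      MeasurableSet.iUnion fun b => MeasurableSet.inter (hO _ ?_) (hf d n b)
    refine isOpen_dep (2 * (d + 1 + t) + 1) ?_
    intro α α' h hα
    simp only [Set.mem_setOf_eq] at hα ⊢
    rw [← pre_tlI h]
    exact hα
  have h2 : Wr f e = ⋃ d, ({α : ℕ → Bool | (∀ i < d, α (2 * i + 1) = true) ∧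
      α (2 * d + 1) = false} ∩ ({α | tlI d α ∈ Ae f e} ∩ ⋂ n, ⋃ t,
        {α | th d (pre (tlI d α) t) (Nat.pair d n) = some (α (2 * n)).toNat})) := by
    ext α
    simp only [Wr, Set.mem_setOf_eq, Set.mem_iInter, Set.mem_iUnion, Set.mem_inter_iff]
    constructor
    · rintro ⟨d, h1, h2, h3, h4⟩
      exact ⟨d, ⟨h1, h2⟩, h3, h4⟩
    · rintro ⟨d, ⟨h1, h2⟩, h3, h4⟩
      exact ⟨d, h1, h2, h3, h4⟩
  rw [h2]
  refine MeasurableSet.iUnion fun d => MeasurableSet.inter (hO _ ?_)
    (MeasurableSet.inter (hAe d) (MeasurableSet.iInter fun n => MeasurableSet.iUnion fun t =>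
      hO _ ?_))
  · refine isOpen_dep (2 * d + 2) ?_
    rintro α α' h ⟨h3, h4⟩
    exact ⟨fun i hi => by rw [← h _ (by omega)]; exact h3 i hi, by
      rw [← h _ (by omega)]; exact h4⟩
  · refine isOpen_dep (2 * (d + 1 + t) + 1 + 2 * n + 1) ?_
    intro α α' h hα
    simp only [Set.mem_setOf_eq] at hα ⊢
    rw [← pre_tlI (fun i hi => h i (by omega)), ← h (2 * n) (by omega)]
    exact hα

/-! ### Cofinality -/

theorem exists_cofinal {f : (ℕ → Bool) → (ℕ → Bool)}
    (h : ∀ c, ∃ x, LeT c x ∧ LeT (f x) x) : ∃ e, ∀ c, ∃ y, LeT c y ∧ y ∈ Ae f e := by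
  by_contra hcon
  push Not at hcon
  choose c hc using hcon
  obtain ⟨x, hx, hfx⟩ := h (fun m => c m.unpair.1 m.unpair.2)
  have h0 : Rc {((nat x : ℕ → ℕ) : ℕ →. ℕ)} (nat (f x)) := hfx
  obtain ⟨e, he⟩ := th_complete h0
  refine hc e x ?_ (fun n => ?_)
  · refine leT_trans ?_ hx
    rw [leT_iff]
    have h1 : Primrec (fun n : ℕ => Nat.pair e n) :=
      Primrec₂.natPair.comp (Primrec.const e) Primrec.id
    exact (Rc.comp (rc_self _) (Rc.of_primrec h1)).of_eq fun n => by simp
  · obtain ⟨t, ht⟩ := he n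
    exact ⟨t, ht⟩

/-! ### Codes of strategies -/

/-- the code of a strategy -/
def codeS (τ : List Bool → Bool) : ℕ → Bool := fun m => τ ((decode m : Option (List Bool)).getD [])

theorem codeS_encode (τ : List Bool → Bool) (l : List Bool) : codeS τ (encode l) = τ l := by
  unfold codeS
  simp

theorem primrec_qidx : Primrec (fun p : ℕ × ℕ => p.2 - (p.1 + 1)) :=
  Primrec.nat_sub.comp Primrec.snd (Primrec.succ.comp Primrec.fst)

theorem rc_qd {O : Set (ℕ →. ℕ)} {y : ℕ → Bool} (hy : Rc O y) :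
    Rc O (fun p : ℕ × ℕ => qd p.1 y p.2) := by
  unfold qd
  refine Rc.ite (c := fun p : ℕ × ℕ => p.2 < p.1) (Rc.of_primrec ?_) (Rc.const true) ?_
  · exact Primrec.nat_lt.decide.comp Primrec.snd Primrec.fst
  · refine Rc.ite (c := fun p : ℕ × ℕ => p.2 = p.1) (Rc.of_primrec ?_) (Rc.const false) ?_
    · exact (Primrec.eq (α := ℕ)).decide.comp Primrec.snd Primrec.fst
    · exact Rc.comp hy (Rc.of_primrec primrec_qidx)

/-! ### Player I cannot win -/

theorem not_I {f : (ℕ → Bool) → (ℕ → Bool)} {e : ℕ} (hcof : ∀ c, ∃ y, LeT c y ∧ y ∈ Ae f e)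
    (τ : List Bool → Bool) : ∃ w, join (rI τ w) w ∈ Wr f e := by
  obtain ⟨y, hy, hye⟩ := hcof (codeS τ)
  have hyr : Rc {(chi y : ℕ →. ℕ)} y := rc_self y
  have hτ : Rc {(chi y : ℕ →. ℕ)} (codeS τ) := leT_iff.1 hy
  -- the moves of I against `1^d 0 y`, uniformly
  have h1 : Rc {(chi y : ℕ →. ℕ)} (fun m : ℕ => rI τ (qd m.unpair.1 y) m.unpair.2) := by
    have h2 : Rc {(chi y : ℕ →. ℕ)} (fun m : ℕ =>
        (List.range m.unpair.2).map (fun i => qd m.unpair.1 y i)) := by
      refine Rc.table (F := fun (m : ℕ) (i : ℕ) => qd m.unpair.1 y i) ?_ ?_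
      · exact Rc.comp (f := fun p : ℕ × ℕ => qd p.1 y p.2)
          (g := fun p : ℕ × ℕ => (p.1.unpair.1, p.2)) (rc_qd hyr)
          (Rc.of_primrec (Primrec.pair (Primrec.fst.comp (Primrec.unpair.comp Primrec.fst))
            Primrec.snd))
      · exact Rc.of_primrec (Primrec.snd.comp Primrec.unpair)
    have h3 := Rc.comp hτ (Rc.prim1 (f := fun l : List Bool => encode l) Primrec.encode h2)
    refine h3.of_eq fun m => ?_
    rw [codeS_encode]
    rfl
  have h4 : Rc {((nat y : ℕ → ℕ) : ℕ →. ℕ)}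
      (fun m : ℕ => (rI τ (qd m.unpair.1 y) m.unpair.2).toNat) :=
    Rc.prim1 (f := Bool.toNat) (Primrec.dom_bool Bool.toNat) h1
  obtain ⟨d, hd⟩ := th_complete h4
  refine ⟨qd d y, d, ?_, ?_, ?_, ?_⟩
  · intro i hi
    rw [join_odd]
    simp [qd, hi]
  · rw [join_odd]
    simp [qd]
  · have h5 : tlI d (join (rI τ (qd d y)) (qd d y)) = y := by
      funext n
      unfold tlI
      rw [join_odd]
      unfold qd
      rw [if_neg (by omega), if_neg (by omega)]
      congr 1
      omega
    rw [h5]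
    exact hye
  · have h5 : tlI d (join (rI τ (qd d y)) (qd d y)) = y := by
      funext n
      unfold tlI
      rw [join_odd]
      unfold qd
      rw [if_neg (by omega), if_neg (by omega)]
      congr 1
      omega
    intro n
    obtain ⟨t, ht⟩ := hd (Nat.pair d n)
    refine ⟨t, ?_⟩
    rw [h5, join_even, ht]
    simp

/-! ### A winning strategy of II -/

/-- `0^(d+1) v` -/
def zv (d : ℕ) (v : ℕ → Bool) : ℕ → Bool := fun i => if i ≤ d then false else v (i - (d + 1))

theorem zv_digit (d : ℕ) (v : ℕ → Bool) (n : ℕ) : zv d v (d + 1 + n) = v n := by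
  unfold zv
  rw [if_neg (by omega)]
  congr 1
  omega

theorem of_II {f : (ℕ → Bool) → (ℕ → Bool)} {e : ℕ} {σ : List Bool → Bool}
    (hσ : ∀ p, join p (rII σ p) ∈ Wr f e) :
    ∃ y : (ℕ → Bool) → (ℕ → Bool), Continuous y ∧ Continuous (fun v => f (y v)) ∧
      ∃ c : ℕ → Bool, ∀ v, EqT (y (join v c)) (join v c) := by
  obtain ⟨d0, h1, h2, -, -⟩ := hσ (fun _ => false)
  have hmv : ∀ v : ℕ → Bool, ∀ i ≤ d0, rII σ (zv d0 v) i = rII σ (fun _ => false) i := by
    intro v i hi
    unfold rII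
    congr 1
    refine pre_congr ?_
    intro j hj
    unfold zv
    rw [if_pos (by omega)]
  have hd : ∀ v, tlI d0 (join (zv d0 v) (rII σ (zv d0 v))) ∈ Ae f e ∧
      ∀ n, ∃ t, th d0 (pre (tlI d0 (join (zv d0 v) (rII σ (zv d0 v)))) t) (Nat.pair d0 n)
        = some (zv d0 v n).toNat := by
    intro v
    obtain ⟨d, g1, g2, g3, g4⟩ := hσ (zv d0 v)
    have hdd : d = d0 := by
      rcases lt_trichotomy d d0 with h | h | h
      · have h3 := h1 d h
        rw [join_odd] at h3 g2
        rw [hmv v d (by omega), h3] at g2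
        exact absurd g2 (by simp)
      · exact h
      · have h3 := g1 d0 h
        rw [join_odd] at h3 h2
        rw [hmv v d0 (le_refl _), h2] at h3
        exact absurd h3 (by simp)
    subst hdd
    refine ⟨g3, fun n => ?_⟩
    obtain ⟨t, ht⟩ := g4 n
    rw [join_even] at ht
    exact ⟨t, ht⟩
  obtain ⟨y, hy⟩ : ∃ y : (ℕ → Bool) → (ℕ → Bool),
      y = fun v => tlI d0 (join (zv d0 v) (rII σ (zv d0 v))) := ⟨_, rfl⟩
  have hyn : ∀ v n, y v n = σ (pre (zv d0 v) (d0 + 1 + n + 1)) := by
    intro v n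
    rw [hy]
    show join (zv d0 v) (rII σ (zv d0 v)) (2 * (d0 + 1 + n) + 1) = _
    rw [join_odd]
    rfl
  have hpz : ∀ (v v' : ℕ → Bool) (t : ℕ), (∀ i < t, v i = v' i) →
      pre (zv d0 v) t = pre (zv d0 v') t := by
    intro v v' t h
    refine pre_congr ?_
    intro i hi
    unfold zv
    by_cases hid : i ≤ d0
    · rw [if_pos hid, if_pos hid]
    · rw [if_neg hid, if_neg hid]
      exact h _ (by omega)
  have hyc : Continuous y := by
    refine continuous_pi fun n => ?_
    refine IsLocallyConstant.continuous ?_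
    rw [IsLocallyConstant.iff_eventually_eq]
    intro v
    have h3 : ∀ᶠ v' in nhds v, ∀ i ∈ Finset.range (d0 + 1 + n + 1), v' i = v i := by
      rw [Filter.eventually_all_finset]
      intro i _
      have hc : Continuous (fun q : ℕ → Bool => q i) := continuous_apply i
      exact ((isOpen_discrete {v i}).preimage hc).mem_nhds rfl
    filter_upwards [h3] with v' hv'
    rw [hyn, hyn, hpz v' v _ (fun i hi => hv' i (Finset.mem_range.2 hi))]
  have hye : ∀ v, y v ∈ Ae f e := fun v => by rw [hy]; exact (hd v).1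
  refine ⟨y, hyc, ?_, codeS σ, fun v => ⟨?_, ?_⟩⟩
  · refine continuous_pi fun n => ?_
    refine IsLocallyConstant.continuous ?_
    rw [IsLocallyConstant.iff_eventually_eq]
    intro v
    obtain ⟨t, ht⟩ := hye v n
    have h3 : ∀ᶠ v' in nhds v, ∀ i ∈ Finset.range t, y v' i = y v i := by
      rw [Filter.eventually_all_finset]
      intro i _
      have hc : Continuous (fun v' : ℕ → Bool => y v' i) := (continuous_apply i).comp hyc
      exact ((isOpen_discrete {y v i}).preimage hc).mem_nhds rfl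
    filter_upwards [h3] with v' hv'
    obtain ⟨t', ht'⟩ := hye v' n
    have h4 : pre (y v') t = pre (y v) t :=
      pre_congr fun i hi => hv' i (Finset.mem_range.2 hi)
    rw [← h4] at ht
    have h5 := th_mono (pre_prefix (y v') (le_max_left t t')) ht
    have h6 := th_mono (pre_prefix (y v') (le_max_right t t')) ht'
    rw [h5] at h6
    have h7 := Option.some.inj h6
    revert h7
    cases f (y v) n <;> cases f (y v') n <;> simp
  · rw [leT_iff]
    have h := rc_self (join v (codeS σ))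
    have hcr := rc_right h
    have h3 : Rc {(chi (join v (codeS σ)) : ℕ →. ℕ)} (zv d0 (join v (codeS σ))) := by
      unfold zv
      refine Rc.ite (c := fun i : ℕ => i ≤ d0) (Rc.of_primrec ?_) (Rc.const false) ?_
      · exact Primrec.nat_le.decide.comp Primrec.id (Primrec.const d0)
      · exact Rc.comp h (Rc.of_primrec (Primrec.nat_sub.comp Primrec.id
          (Primrec.const (d0 + 1))))
    have h4 : Rc {(chi (join v (codeS σ)) : ℕ →. ℕ)}
        (fun n => pre (zv d0 (join v (codeS σ))) (d0 + 1 + n + 1)) :=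
      Rc.comp (rc_pre h3) (Rc.of_primrec (Primrec.succ.comp
        (Primrec.nat_add.comp (Primrec.const (d0 + 1)) Primrec.id)))
    have h5 := Rc.comp hcr (Rc.prim1 (f := fun l : List Bool => encode l) Primrec.encode h4)
    refine h5.of_eq fun n => ?_
    rw [codeS_encode, hyn]
  · -- the argument is computable from the value
    have h3 : Rc {(chi (y (join v (codeS σ))) : ℕ →. ℕ)}
        (fun n => (zv d0 (join v (codeS σ)) n).toNat) := by
      have h4 := (hd (join v (codeS σ))).2
      refine Rc.rfindOpt (f := fun n t => th d0 (pre (y (join v (codeS σ))) t)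
        (Nat.pair d0 n)) ?_ ?_ ?_
      · refine rc_th (Rc.const d0) (Rc.comp (rc_pre (rc_self _)) Rc.snd) ?_
        exact Rc.of_primrec (Primrec₂.natPair.comp (Primrec.const d0) Primrec.fst)
      · intro n
        rw [hy]
        exact h4 n
      · intro n t u hu
        obtain ⟨t', ht'⟩ := h4 n
        rw [hy] at hu
        have h5 := th_mono (pre_prefix _ (le_max_left t t')) hu
        have h6 := th_mono (pre_prefix _ (le_max_right t t')) ht'
        rw [h5] at h6
        exact Option.some.inj h6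
    have h4 : Rc {(chi (y (join v (codeS σ))) : ℕ →. ℕ)} (zv d0 (join v (codeS σ))) := by
      have h5 : Primrec (fun n : ℕ => decide (n = 1)) :=
        (Primrec.eq (α := ℕ)).decide.comp Primrec.id (Primrec.const 1)
      refine (Rc.prim1 h5 h3).of_eq fun n => ?_
      cases zv d0 (join v (codeS σ)) n <;> simp
    rw [leT_iff]
    have h5 : Primrec (fun n : ℕ => d0 + 1 + n) :=
      Primrec.nat_add.comp (Primrec.const (d0 + 1)) Primrec.id
    exact (Rc.comp h4 (Rc.of_primrec h5)).of_eq fun n => zv_digit d0 _ n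

/-- the regressive case for everywhere invariant functions -/
theorem reg0 (hC : T_CST) (f : (ℕ → Bool) → (ℕ → Bool))
    (hdet : ∀ A, @MeasurableSet (ℕ → Bool) (Gam f) A → Determined A)
    (hinv : ∀ x y, EqT x y → EqM (f x) (f y)) (h : ∀ c, ∃ x, LeT c x ∧ LeT (f x) x) :
    ∃ c, ∀ x y, LeT c x → LeT c y → EqM (f x) (f y) := by
  obtain ⟨e, he⟩ := exists_cofinal h
  rcases hdet (Wr f e) (meas_Wr f e) with ⟨σ, hσ⟩ | ⟨τ, hτ⟩
  · obtain ⟨y, hy1, hy2, c, hc⟩ := of_II hσ
    exact ⟨c, hC f hinv y hy1 hy2 c hc⟩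
  · obtain ⟨w, hw⟩ := not_I he τ
    exact absurd hw (hτ w)

end Pool.Agent.H76.LUD
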