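import Pool.Agent.H76.LUD.Targets

/-!
# The map of the fusion preserves the Turing degree above a code
-/

set_option autoImplicit false

namespace Pool.Agent.H76.LUD

open Encodable
open Pool.Agent.H69 Pool.Agent.H81.TM

theorem cn_primrec : Primrec cn := by
  have hpow : Primrec (fun n : ℕ => 4 ^ n) := by
    have h : Primrec (fun n : ℕ => Nat.rec (motive := fun _ => ℕ) 1 (fun _ IH => IH * 4) n) := by
      refine Primrec.nat_rec' (f := fun n : ℕ => n) (g := fun _ : ℕ => 1)
        (h := fun _ (q : ℕ × ℕ) => q.2 * 4) Primrec.id (Primrec.const 1) ?_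
      exact (Primrec.nat_mul.comp (Primrec.snd.comp Primrec.snd) (Primrec.const 4)).to₂
    refine h.of_eq fun n => ?_
    induction n with
    | zero => rfl
    | succ n ih => rw [pow_succ, ← ih]
  have h : Primrec (fun n : ℕ => Nat.rec (motive := fun _ => ℕ) 0
      (fun m IH => IH + 4 ^ (m + 1)) n) := by
    refine Primrec.nat_rec' (f := fun n : ℕ => n) (g := fun _ : ℕ => 0)
      (h := fun _ (q : ℕ × ℕ) => q.2 + 4 ^ (q.1 + 1)) Primrec.id (Primrec.const 0) ?_
    exact (Primrec.nat_add.comp (Primrec.snd.comp Primrec.snd)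
      (hpow.comp (Primrec.succ.comp (Primrec.fst.comp Primrec.snd)))).to₂
  refine h.of_eq fun n => ?_
  induction n with
  | zero => rfl
  | succ n ih => simp only [cn]; rw [← ih]

theorem pf_TEQ (hL : T_LIP) : T_TEQ := by
  intro y hy hd
  obtain ⟨L, hLy⟩ := hL.2.1 y hy
  refine ⟨fun i => L ((decode i : Option (List Bool)).getD []), fun v => ⟨?_, ?_⟩⟩
  · rw [leT_iff]
    obtain ⟨c, hc⟩ : ∃ c : ℕ → Bool, c = fun i => L ((decode i : Option (List Bool)).getD []) := ⟨_, rfl⟩
    rw [← hc]
    have h := rc_self (join v c)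
    have hcr := rc_right h
    have h1 : Rc {(chi (join v c) : ℕ →. ℕ)} (fun n => pre (join v c) (n + 1)) :=
      Rc.comp (rc_pre h) (Rc.of_primrec Primrec.succ)
    have h2 : Rc {(chi (join v c) : ℕ →. ℕ)} (fun n => c (encode (pre (join v c) (n + 1)))) :=
      Rc.comp hcr (Rc.prim1 (f := fun l : List Bool => encode l) Primrec.encode h1)
    refine h2.of_eq fun n => ?_
    rw [hLy, hc]
    simp
  · rw [leT_iff]
    exact (Rc.comp (rc_self (y _)) (Rc.of_primrec cn_primrec)).of_eq fun n => (hd _ n).symm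

end Pool.Agent.H76.LUD
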