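import Pool.Agent.H76.LUD.FUS
import Pool.Agent.H76.LUD.LUF
import Pool.Agent.H76.LUD.FNC
import Pool.Agent.H76.LUD.CEI
import Pool.Agent.H76.LUD.TEQ
import Pool.Agent.H76.LUD.Reg
import Pool.Agent.H1.LUD.LIP
import Pool.Agent.H1.LUD.MEA
import Pool.Agent.H46.LUD.PSF
import Pool.Agent.H54.LUD.AVC
import Pool.Agent.H54.LUD.CST
import Pool.Agent.H54.LUD.MSH
import Pool.Agent.H61.LUD.DEG
import Pool.Agent.H72.LUD.AVN
import Pool.Agent.H72.LUD.DI0
import Pool.Agent.H72.LUD.DIC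
import Pool.Agent.H72.LUD.PSB
import Pool.Agent.H72.LUD.STG

/-!
# The assembly
-/

set_option autoImplicit false

namespace Pool.Agent.H76.LUD.All

open Encodable
open Pool.Agent.H69 Pool.Agent.H81.TM Pool.Agent.H76.LUD

theorem lip : T_LIP := Pool.Agent.H1.LUD.pf_LIP

theorem dic : T_DIC :=
  Pool.Agent.H72.LUD.pf_DIC (Pool.Agent.H72.LUD.pf_DI0 lip Pool.Agent.H1.LUD.pf_MEA
    (Pool.Agent.H72.LUD.pf_STG lip) (pf_FUS lip) (pf_TEQ lip) Pool.Agent.H54.LUD.pf_CST)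

theorem luf : T_LUF :=
  pf_LUF dic pf_FNC Pool.Agent.H54.LUD.pf_MSH Pool.Agent.H72.LUD.pf_PSB
    (Pool.Agent.H46.LUD.pf_PSF lip Pool.Agent.H54.LUD.pf_AVC) Pool.Agent.H72.LUD.pf_AVN
    pf_CEI Pool.Agent.H61.LUD.pf_DEG

/-- a nonexpanding decodable map preserves the Turing degree above a code -/
theorem deg_pres {Z : (ℕ → Bool) → (ℕ → Bool)} {a b : ℕ} (hZ : Lip Z) (hd : Dec Z a b) :
    ∃ c : ℕ → Bool, ∀ p, LeT c p → EqT (Z p) p := by
  obtain ⟨L, hL⟩ := lip.2.1 Z hZ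
  refine ⟨codeS L, fun p hp => ⟨?_, ?_⟩⟩
  · rw [leT_iff]
    have h1 : Rc {(chi p : ℕ →. ℕ)} (fun n => pre p (n + 1)) :=
      Rc.comp (rc_pre (rc_self p)) (Rc.of_primrec Primrec.succ)
    have h2 := Rc.comp (leT_iff.1 hp)
      (Rc.prim1 (f := fun l : List Bool => encode l) Primrec.encode h1)
    refine h2.of_eq fun n => ?_
    rw [codeS_encode, hL]
  · rw [leT_iff]
    have h1 : Primrec (fun n : ℕ => a + b * n) :=
      Primrec.nat_add.comp (Primrec.const a) (Primrec.nat_mul.comp (Primrec.const b) Primrec.id)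
    exact (Rc.comp (rc_self (Z p)) (Rc.of_primrec h1)).of_eq fun n => (hd p n).symm

theorem leT_of_leM {a b : ℕ → Bool} (h : LeM a b) : LeT a b := by
  obtain ⟨ρ, hρ, h1⟩ := h
  rw [leT_iff]
  exact (Rc.comp (rc_self b) (Rc.of_computable hρ)).of_eq fun n => (h1 n).symm

/-- the regressive case -/
theorem reg (c0 : ℕ → Bool) (f : (ℕ → Bool) → (ℕ → Bool))
    (hdet : ∀ A, @MeasurableSet (ℕ → Bool) (Gam f) A → Determined A)
    (hinv : ∀ x y, LeT c0 x → LeT c0 y → EqT x y → EqM (f x) (f y))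
    (h : ∀ c, ∃ x, LeT c x ∧ LeT (f x) x) :
    ∃ c, ∀ x y, LeT c x → LeT c y → EqM (f x) (f y) := by
  have hG : Gam (fun x => f (join x c0)) ≤ Gam f := by
    refine MeasurableSpace.generateFrom_le ?_
    rintro A (hA | ⟨E, k, hE, rfl⟩)
    · exact MeasurableSpace.measurableSet_generateFrom (Or.inl hA)
    · exact MeasurableSpace.measurableSet_generateFrom
        (Or.inr ⟨fun x => join (E x) c0, k,
          continuous_join.comp (hE.prodMk continuous_const), rfl⟩)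
  have hr : ∀ x : ℕ → Bool, LeT c0 (join x c0) := fun x => leT_iff.2 (rc_right (rc_self _))
  have hl : ∀ x c : ℕ → Bool, LeT x (join x c) := fun x c => leT_iff.2 (rc_left (rc_self _))
  have hrr : ∀ x c : ℕ → Bool, LeT c (join x c) := fun x c => leT_iff.2 (rc_right (rc_self _))
  have hinv0 : ∀ x y, EqT x y → EqM (f (join x c0)) (f (join y c0)) := by
    intro x y hxy
    refine hinv _ _ (hr x) (hr y) ⟨?_, ?_⟩
    · exact leT_iff.2 (rc_join (rc_of_leT hxy.1 (rc_left (rc_self _))) (rc_right (rc_self _)))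
    · exact leT_iff.2 (rc_join (rc_of_leT hxy.2 (rc_left (rc_self _))) (rc_right (rc_self _)))
  have key : ∀ x, LeT c0 x → EqM (f x) (f (join x c0)) := by
    intro x hx
    exact hinv _ _ hx (hr x) ⟨hl x c0, leT_iff.2 (rc_join (rc_self _) (leT_iff.1 hx))⟩
  obtain ⟨c1, hc1⟩ := reg0 Pool.Agent.H54.LUD.pf_CST (fun x => f (join x c0))
    (fun A hA => hdet A (hG A hA)) hinv0 (by
      intro c
      obtain ⟨x, hx, hfx⟩ := h (join c c0)
      refine ⟨x, leT_trans (hl c c0) hx, ?_⟩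
      exact leT_trans (leT_of_leM (key x (leT_trans (hrr c c0) hx)).2) hfx)
  refine ⟨join c1 c0, fun x y hx hy => ?_⟩
  have hx1 := key x (leT_trans (hrr c1 c0) hx)
  have hy1 := key y (leT_trans (hrr c1 c0) hy)
  have hxy := hc1 x y (leT_trans (hl c1 c0) hx) (leT_trans (hl c1 c0) hy)
  exact ⟨leM_trans hx1.1 (leM_trans hxy.1 hy1.2), leM_trans hy1.1 (leM_trans hxy.2 hx1.2)⟩

end Pool.Agent.H76.LUD.All
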