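import Mathlib
import Pool.Agent.H69.Func
import Pool.Agent.H81.TM.Core

/-!
# Turing-to-many-one invariant functions: games and locally uniform functions, definitions

Points are elements of Cantor space. `join`, `LeT`, `EqT` are those of `Pool.Agent.H81.TM`
(Turing reducibility through Mathlib's oracle computability), `pre x n` is the initial segment of
length `n` of `x` (`Pool.Agent.H69.pre`).
-/

set_option autoImplicit false

namespace Pool.Agent.H76.LUD

open Pool.Agent.H69 Pool.Agent.H81.TM

/-! ### Many-one reducibility -/

/-- Many-one reducibility of elements of Cantor space. -/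
def LeM (x y : ℕ → Bool) : Prop := ∃ ρ : ℕ → ℕ, Computable ρ ∧ ∀ n, x n = y (ρ n)

/-- Many-one equivalence. -/
def EqM (x y : ℕ → Bool) : Prop := LeM x y ∧ LeM y x

/-- The set with characteristic function `B` is computably enumerable in `x`: it is the domain of
a partial function which is recursive in `x`. -/
def CeIn (x B : ℕ → Bool) : Prop :=
  ∃ φ : ℕ →. ℕ, Nat.RecursiveIn {(chi x : ℕ →. ℕ)} φ ∧ ∀ n, B n = true ↔ (φ n).Dom

/-- The complement. -/
def compl (B : ℕ → Bool) : ℕ → Bool := fun n => !(B n)

/-! ### Games on Cantor space -/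

/-- Player I follows the strategy `τ` against the moves `w` of player II: the `n`-th move depends
on the first `n` moves of II. -/
def rI (τ : List Bool → Bool) (w : ℕ → Bool) : ℕ → Bool := fun n => τ (pre w n)

/-- Player II follows the strategy `σ` against the moves `p` of player I: the `n`-th move depends
on the first `n + 1` moves of I. -/
def rII (σ : List Bool → Bool) (p : ℕ → Bool) : ℕ → Bool := fun n => σ (pre p (n + 1))

/-- The game in which I and II play digits in turn and II wins if the resulting sequence is in `A`
is determined. -/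
def Determined (A : Set (ℕ → Bool)) : Prop :=
  (∃ σ : List Bool → Bool, ∀ p, join p (rII σ p) ∈ A) ∨
  (∃ τ : List Bool → Bool, ∀ w, join (rI τ w) w ∉ A)

/-- The σ-algebra generated by the open sets and the continuous preimages of the sets
`{x | f x k = true}`. If `f` is Borel, all its sets are Borel. -/
def Gam (f : (ℕ → Bool) → (ℕ → Bool)) : MeasurableSpace (ℕ → Bool) :=
  MeasurableSpace.generateFrom ({U | IsOpen U} ∪
    {A | ∃ (E : (ℕ → Bool) → (ℕ → Bool)) (k : ℕ), Continuous E ∧ A = {x | f (E x) k = true}})

/-! ### Maps of Cantor space -/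

/-- `E` is nonexpanding: digit `n` of the value depends on the digits up to `n`. -/
def Lip (E : (ℕ → Bool) → (ℕ → Bool)) : Prop :=
  ∀ v v' : ℕ → Bool, ∀ n, (∀ i ≤ n, v i = v' i) → E v n = E v' n

/-- The argument of `E` is read off from the value on an arithmetic progression. -/
def Dec (E : (ℕ → Bool) → (ℕ → Bool)) (a b : ℕ) : Prop := ∀ v n, v n = E v (a + b * n)

/-! ### Computable functionals and locally uniform functions -/

/-- The computable functional given by `g` maps `x` to `y`: for every `n` the first value
`g (pre x t) n` that appears is `y n`. -/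
def Fn (g : List Bool → ℕ → Option Bool) (x y : ℕ → Bool) : Prop :=
  ∀ n, ∃ t, g (pre x t) n = some (y n) ∧ ∀ s < t, g (pre x s) n = none

/-- Whenever `x` above `c0` and `y` are Turing equivalent by two given computable functionals `g`
and `h`, some pair of many-one reductions between `f x` and `f y` also works for all `x'`, `y'`
which are Turing equivalent by `g` and `h`, with `x'` Turing equivalent to `x` and close to `x`. -/
def LocUnif (c0 : ℕ → Bool) (f : (ℕ → Bool) → (ℕ → Bool)) : Prop :=
  ∀ g h : List Bool → ℕ → Option Bool, Computable₂ g → Computable₂ h →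
    ∀ x y : ℕ → Bool, LeT c0 x → Fn g x y → Fn h y x →
      ∃ (N : ℕ) (ρ ρ' : ℕ → ℕ), Computable ρ ∧ Computable ρ' ∧
        ∀ x' y' : ℕ → Bool, EqT x' x → (∀ n < N, x' n = x n) → Fn g x' y' → Fn h y' x' →
          ∀ n, f x' n = f y' (ρ n) ∧ f y' n = f x' (ρ' n)

/-! ### Auxiliary definitions -/

/-- The payoff set of the games. -/
def W (f : (ℕ → Bool) → (ℕ → Bool)) (k : ℕ) (E : (ℕ → Bool) → (ℕ → Bool)) (s : Bool) :
    Set (ℕ → Bool) :=
  {α | f (E α) k = s ↔ ∃ n, α (4 * n) = true}

/-- I plays `rI τ w` against `w`. -/
def aI (τ : List Bool → Bool) (w : ℕ → Bool) : ℕ → Bool := join (rI τ w) w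

/-- II plays `rII σ p` against `p`. -/
def aII (σ : List Bool → Bool) (p : ℕ → Bool) : ℕ → Bool := join p (rII σ p)

/-- Put the digit `b` in front. -/
def cs (b : Bool) (m : ℕ → Bool) : ℕ → Bool := fun n => if n = 0 then b else m (n - 1)

/-- The places of the digits in the fusion. -/
def cn : ℕ → ℕ
  | 0 => 0
  | n + 1 => cn n + 4 ^ (n + 1)

/-- The characteristic function of `{n}`. -/
def dl (n : ℕ) : ℕ → Bool := fun i => decide (i = n)

/-- Program `j` halts on some initial segment of length at most `s` of `x` within `s` steps. -/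
def hs (x : ℕ → Bool) (j s : ℕ) : Bool :=
  (List.range (s + 1)).any fun t =>
    (Nat.Partrec.Code.evaln s (Denumerable.ofNat Nat.Partrec.Code j)
      (Encodable.encode (pre x t))).isSome

/-- The first place `n ≤ s` with `m n = true`. -/
def fm (m : ℕ → Bool) (s : ℕ) : Option ℕ := (List.range (s + 1)).find? fun n => m n

/-- Digit `s` is true if the first marker `n ≤ s` of `m` exists and program `n.unpair.2` halts on
`x` within `s` steps. -/
def av (x m : ℕ → Bool) : ℕ → Bool := fun s =>
  match fm m s with
  | none => false
  | some n => hs x n.unpair.2 s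

/-- Program `j` halts on some initial segment of `x`. -/
def Halts (x : ℕ → Bool) (j : ℕ) : Prop :=
  ∃ t, (Nat.Partrec.Code.eval (Denumerable.ofNat Nat.Partrec.Code j)
    (Encodable.encode (pre x t))).Dom

end Pool.Agent.H76.LUD
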