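import Pool.Agent.H76.LUD.Targets

/-!
# The fusion
-/

set_option autoImplicit false

namespace Pool.Agent.H76.LUD

open Pool.Agent.H69 Pool.Agent.H81.TM

/-- the nonexpanding decodable maps -/
abbrev Kc : Type := {E : (ℕ → Bool) → (ℕ → Bool) // Lip E ∧ ∃ a b, Dec E a b}

/-- reversed initial segments -/
def rv (v : ℕ → Bool) : ℕ → List Bool
  | 0 => []
  | m + 1 => v m :: rv v m

theorem rv_length (v : ℕ → Bool) (m : ℕ) : (rv v m).length = m := by
  induction m with
  | zero => rfl
  | succ m ih => simp [rv, ih]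

theorem rv_congr {v v' : ℕ → Bool} (m : ℕ) (h : ∀ i < m, v i = v' i) : rv v m = rv v' m := by
  induction m with
  | zero => rfl
  | succ m ih =>
    simp only [rv]
    rw [h m (Nat.lt_succ_self m), ih (fun i hi => h i (by omega))]

/-- the step function -/
structure StepData (f : (ℕ → Bool) → (ℕ → Bool)) where
  G : ℕ → Kc → ((ℕ → Bool) → (ℕ → Bool))
  lip : ∀ k E, Lip (G k E)
  dec : ∀ k E, Dec (G k E) 3 4
  cont : ∀ k (E : Kc), Continuous (fun v => f (E.1 (G k E v)) k)

variable {f : (ℕ → Bool) → (ℕ → Bool)}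

/-- composition with the digit `b` in front -/
def csK (hL : T_LIP) (E : Kc) (b : Bool) : Kc :=
  ⟨fun v => E.1 (cs b v), hL.2.2.1 _ _ E.2.1 (hL.2.2.2.2.1 b).1, by
    obtain ⟨a, b', h⟩ := E.2.2
    exact ⟨_, _, hL.2.2.2.1 _ _ _ _ _ _ h (hL.2.2.2.2.1 b).2⟩⟩

/-- the next map -/
def nextK (hL : T_LIP) (S : StepData f) (E : Kc) (k : ℕ) (b : Bool) : Kc :=
  ⟨fun v => (csK hL E b).1 (S.G k (csK hL E b) v),
    hL.2.2.1 _ _ (csK hL E b).2.1 (S.lip k _), by
    obtain ⟨a, b', h⟩ := (csK hL E b).2.2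
    exact ⟨_, _, hL.2.2.2.1 _ _ _ _ _ _ h (S.dec k _)⟩⟩

/-- the maps of the fusion, for reversed lists -/
def EE (hL : T_LIP) (S : StepData f) : List Bool → Kc
  | [] => ⟨fun v => v, fun _ _ n h => h n (le_refl n), 0, 1, fun v n => by simp⟩
  | b :: s => nextK hL S (EE hL S s) s.length b

theorem EE_cons (hL : T_LIP) (S : StepData f) (b : Bool) (s : List Bool) (w : ℕ → Bool) :
    (EE hL S (b :: s)).1 w =
      (EE hL S s).1 (cs b (S.G s.length (csK hL (EE hL S s) b) w)) := rfl

theorem EE_dep (hL : T_LIP) (S : StepData f) (s : List Bool) : ∀ (v v' : ℕ → Bool) (n : ℕ),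
    (∀ i, i + s.length ≤ n → v i = v' i) → (EE hL S s).1 v n = (EE hL S s).1 v' n := by
  induction s with
  | nil => intro v v' n h; exact h n (by simp)
  | cons b s ih =>
    intro v v' n h
    rw [EE_cons, EE_cons]
    refine ih _ _ n ?_
    intro i hi
    unfold cs
    by_cases h0 : i = 0
    · simp [h0]
    · rw [if_neg h0, if_neg h0]
      refine S.lip _ _ _ _ _ ?_
      intro j hj
      refine h j ?_
      simp only [List.length_cons]
      omega

theorem EE_dec (hL : T_LIP) (S : StepData f) (s : List Bool) : ∀ (w : ℕ → Bool) (n : ℕ),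
    w n = (EE hL S s).1 w (cn s.length + 4 ^ s.length * n) := by
  induction s with
  | nil =>
    intro w n
    have h : cn ([] : List Bool).length + 4 ^ ([] : List Bool).length * n = n := by simp [cn]
    rw [h]
    rfl
  | cons b s ih =>
    intro w n
    rw [EE_cons]
    have h : cn (b :: s).length + 4 ^ (b :: s).length * n
        = cn s.length + 4 ^ s.length * (4 + 4 * n) := by
      simp only [List.length_cons, cn, pow_succ]
      ring
    rw [h, ← ih]
    have h1 : (4 + 4 * n) ≠ 0 := by omega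
    have h2 : 4 + 4 * n - 1 = 3 + 4 * n := by omega
    simp only [cs, h1, if_false, h2]
    exact S.dec _ _ w n

theorem EE_head (hL : T_LIP) (S : StepData f) (b : Bool) (s : List Bool) (w : ℕ → Bool) :
    (EE hL S (b :: s)).1 w (cn s.length) = b := by
  rw [EE_cons]
  have h := EE_dec hL S s (cs b (S.G s.length (csK hL (EE hL S s) b) w)) 0
  simp only [Nat.mul_zero, Nat.add_zero] at h
  rw [← h]
  simp [cs]

/-- the limit map -/
def yy (hL : T_LIP) (S : StepData f) (v : ℕ → Bool) : ℕ → Bool :=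
  fun n => (EE hL S (rv v (n + 1))).1 (fun _ => false) n

theorem EE_sub (hL : T_LIP) (S : StepData f) (v : ℕ → Bool) (m : ℕ) : ∀ d (w : ℕ → Bool),
    ∃ w', (EE hL S (rv v (m + d))).1 w = (EE hL S (rv v m)).1 w' := by
  intro d
  induction d with
  | zero => intro w; exact ⟨w, rfl⟩
  | succ d ih =>
    intro w
    have h : (EE hL S (rv v (m + (d + 1)))).1 w = (EE hL S (rv v (m + d))).1
        (cs (v (m + d)) (S.G (rv v (m + d)).length (csK hL (EE hL S (rv v (m + d)))
          (v (m + d))) w)) := rfl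
    rw [h]
    exact ih _

theorem yy_eq (hL : T_LIP) (S : StepData f) (v : ℕ → Bool) (n M : ℕ) (h : n + 1 ≤ M)
    (w : ℕ → Bool) : (EE hL S (rv v M)).1 w n = yy hL S v n := by
  obtain ⟨d, rfl⟩ := Nat.exists_eq_add_of_le h
  obtain ⟨w', hw'⟩ := EE_sub hL S v (n + 1) d w
  rw [hw']
  unfold yy
  refine EE_dep hL S _ _ _ _ ?_
  intro i hi
  rw [rv_length] at hi
  omega

theorem yy_digit (hL : T_LIP) (S : StepData f) (v : ℕ → Bool) (m : ℕ) :
    v m = yy hL S v (cn m) := by
  rw [← yy_eq hL S v (cn m) (m + 1 + (cn m + 1)) (by omega) (fun _ => false)]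
  obtain ⟨w', hw'⟩ := EE_sub hL S v (m + 1) (cn m + 1) (fun _ => false)
  rw [hw']
  have h := EE_head hL S (v m) (rv v m) w'
  rw [rv_length] at h
  exact h.symm

theorem yy_rest (hL : T_LIP) (S : StepData f) (v : ℕ → Bool) (m : ℕ) :
    yy hL S v = (EE hL S (rv v m)).1 (fun n => yy hL S v (cn m + 4 ^ m * n)) := by
  funext n
  obtain ⟨w', hw'⟩ := EE_sub hL S v m (n + 1 + (cn m + 4 ^ m * n)) (fun _ => false)
  have h1 : yy hL S v n = (EE hL S (rv v m)).1 w' n := by
    rw [← hw']
    exact (yy_eq hL S v n _ (by omega) _).symm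
  rw [h1]
  refine EE_dep hL S _ _ _ _ ?_
  intro i hi
  have h2 := EE_dec hL S (rv v m) w' i
  rw [rv_length, ← hw'] at h2
  rw [h2]
  refine yy_eq hL S v _ _ ?_ _
  have h3 : 4 ^ m * i ≤ 4 ^ m * n := Nat.mul_le_mul_left _ (by omega)
  omega

theorem yy_lip (hL : T_LIP) (S : StepData f) : Lip (yy hL S) := by
  intro v v' n h
  unfold yy
  rw [rv_congr (n + 1) (fun i hi => h i (by omega))]

theorem EE_cont (hL : T_LIP) (S : StepData f) (b : Bool) (s : List Bool) :
    Continuous (fun w => f ((EE hL S (b :: s)).1 w) s.length) :=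
  S.cont s.length (csK hL (EE hL S s) b)

theorem yy_cont (hL : T_LIP) (S : StepData f) : Continuous (fun v => f (yy hL S v)) := by
  refine continuous_pi fun k => ?_
  have hy : Continuous (yy hL S) := hL.1 _ (yy_lip hL S)
  have hr : Continuous (fun v : ℕ → Bool => fun n => yy hL S v (cn (k + 1) + 4 ^ (k + 1) * n)) :=
    continuous_pi fun n => (continuous_apply (cn (k + 1) + 4 ^ (k + 1) * n)).comp
      (f := yy hL S) hy
  rw [continuous_iff_continuousAt]
  intro v
  have h1 : ∀ᶠ v' in nhds v, ∀ i ∈ Finset.range (k + 1), v' i = v i := by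
    rw [Filter.eventually_all_finset]
    intro i _
    have hc : Continuous (fun q : ℕ → Bool => q i) := continuous_apply i
    exact ((isOpen_discrete {v i}).preimage hc).mem_nhds rfl
  have h2 : Continuous (fun v' : ℕ → Bool => f ((EE hL S (rv v (k + 1))).1
      (fun n => yy hL S v' (cn (k + 1) + 4 ^ (k + 1) * n))) k) := by
    have h3 := EE_cont hL S (v k) (rv v k)
    rw [rv_length] at h3
    exact h3.comp hr
  refine h2.continuousAt.congr ?_
  filter_upwards [h1] with v' hv'
  have h4 : rv v' (k + 1) = rv v (k + 1) :=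
    rv_congr (k + 1) (fun i hi => hv' i (Finset.mem_range.2 hi))
  rw [← h4, ← yy_rest hL S v' (k + 1)]

theorem pf_FUS (hL : T_LIP) : T_FUS := by
  intro f hstep
  choose G hG using fun (k : ℕ) (E : Kc) => hstep k E.1 E.2.1 E.2.2
  let S : StepData f := ⟨G, fun k E => (hG k E).1, fun k E => (hG k E).2.1,
    fun k E => (hG k E).2.2⟩
  exact ⟨yy hL S, yy_lip hL S, yy_digit hL S, yy_cont hL S⟩

end Pool.Agent.H76.LUD
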