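import Pool.Agent.H76.LUD.All

/-!
# Sequences in a Turing degree which code a computably enumerable set
-/

set_option autoImplicit false

namespace Pool.Agent.H76.LUD

open Encodable
open Pool.Agent.H69 Pool.Agent.H81.TM

/-- All games with payoff in the σ-algebra of `f` are determined. Under the axiom of determinacy
this holds for every `f`; for Borel `f` it is a case of Borel determinacy. -/
def GamesDet (f : (ℕ → Bool) → (ℕ → Bool)) : Prop :=
  ∀ A : Set (ℕ → Bool), @MeasurableSet (ℕ → Bool) (Gam f) A → Determined A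

/-- `Y` is a sequence of elements of Cantor space which is computable from `x`, and all its terms
are Turing equivalent to `x`. -/
def SeqIn (x : ℕ → Bool) (Y : ℕ → ℕ → Bool) : Prop :=
  ComputableIn {(chi x : ℕ →. ℕ)} (fun p : ℕ × ℕ => Y p.1 p.2) ∧ ∀ n, EqT (Y n) x

theorem exists_seq {Z : (ℕ → Bool) → (ℕ → Bool)} {a b : ℕ} (hZ : Lip Z) (hd : Dec Z a b) :
    ∃ c : ℕ → Bool, (∀ p, LeT c p → EqT (Z p) p) ∧
      ∀ x, LeT c x → ∀ B, CeIn x B → ∃ P : ℕ → ℕ → Bool, SeqIn x (fun n => Z (P n)) ∧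
        ∀ n, (∃ m, P n (2 * m) = true) ↔ B n = true := by
  obtain ⟨L, hL⟩ := All.lip.2.1 Z hZ
  obtain ⟨c1, hc1⟩ := All.deg_pres hZ hd
  have hl : ∀ x c : ℕ → Bool, LeT x (join x c) := fun x c => leT_iff.2 (rc_left (rc_self _))
  have hr : ∀ x c : ℕ → Bool, LeT c (join x c) := fun x c => leT_iff.2 (rc_right (rc_self _))
  refine ⟨join c1 (codeS L), fun p hp => hc1 p (leT_trans (hl _ _) hp), ?_⟩
  intro x hx B hB
  obtain ⟨r, hrc, hr1⟩ := pf_CEI x B hB
  obtain ⟨q, hq, hq1⟩ := Pool.Agent.H54.LUD.pf_AVC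
  have hxs : Rc {(chi x : ℕ →. ℕ)} x := rc_self x
  -- the digits of the first coordinate
  have hav : Rc {(chi x : ℕ →. ℕ)}
      (fun p : ℕ × ℕ => av x (dl (Nat.pair 0 (r p.1))) p.2) := by
    have h1 : Rc {(chi x : ℕ →. ℕ)} (fun p : ℕ × ℕ => pre x (p.2 + 1)) :=
      Rc.comp (rc_pre hxs) (Rc.of_primrec (Primrec.succ.comp Primrec.snd))
    have h2 : Rc {(chi x : ℕ →. ℕ)}
        (fun p : ℕ × ℕ => (List.range (p.2 + 1)).map (dl (Nat.pair 0 (r p.1)))) := by
      refine Rc.table (F := fun (p : ℕ × ℕ) (i : ℕ) => dl (Nat.pair 0 (r p.1)) i) ?_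
        (Rc.of_primrec (Primrec.succ.comp Primrec.snd))
      have h3 : Computable (fun z : (ℕ × ℕ) × ℕ => decide (z.2 = Nat.pair 0 (r z.1.1))) := by
        have h4 : Computable (fun z : (ℕ × ℕ) × ℕ => Nat.pair 0 (r z.1.1)) :=
          Primrec₂.natPair.to_comp.comp (Computable.const 0)
            (hrc.comp (Computable.fst.comp Computable.fst))
        exact (Primrec.eq (α := ℕ)).decide.to_comp.comp Computable.snd h4
      exact Rc.of_computable h3
    have h5 : Rc {(chi x : ℕ →. ℕ)} (fun p : ℕ × ℕ =>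
        q (pre x (p.2 + 1)) ((List.range (p.2 + 1)).map (dl (Nat.pair 0 (r p.1)))) p.2) :=
      Rc.comp (f := fun p : List Bool × List Bool × ℕ => q p.1 p.2.1 p.2.2)
        (Rc.of_computable hq) (Rc.pair h1 (Rc.pair h2 Rc.snd))
    refine h5.of_eq ?_
    rintro ⟨n, s⟩
    exact hq1 x (dl (Nat.pair 0 (r n))) s (s + 1) (Nat.lt_succ_self s)
  have hjoin : Rc {(chi x : ℕ →. ℕ)}
      (fun p : ℕ × ℕ => join (av x (dl (Nat.pair 0 (r p.1)))) x p.2) := by
    have hdv : Primrec (fun p : ℕ × ℕ => p.2 / 2) :=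
      (Primrec.nat_div2.of_eq (fun n => Nat.div2_val n)).comp Primrec.snd
    have hm : Primrec (fun p : ℕ × ℕ => decide (p.2 % 2 = 0)) :=
      (Primrec.eq (α := ℕ)).decide.comp (Primrec.nat_mod.comp Primrec.snd (Primrec.const 2))
        (Primrec.const 0)
    refine Rc.ite (c := fun p : ℕ × ℕ => p.2 % 2 = 0) (Rc.of_primrec hm) ?_ ?_
    · exact Rc.comp (f := fun p : ℕ × ℕ => av x (dl (Nat.pair 0 (r p.1))) p.2)
        (g := fun p : ℕ × ℕ => (p.1, p.2 / 2)) hav (Rc.of_primrec (Primrec.pair Primrec.fst hdv))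
    · exact Rc.comp hxs (Rc.of_primrec hdv)
  have hcL : Rc {(chi x : ℕ →. ℕ)} (codeS L) := leT_iff.1 (leT_trans (hr _ _) hx)
  refine ⟨fun n => join (av x (dl (Nat.pair 0 (r n)))) x, ⟨?_, fun n => ?_⟩, fun n => ?_⟩
  · have h1 : Rc {(chi x : ℕ →. ℕ)} (fun p : ℕ × ℕ =>
        (List.range (p.2 + 1)).map (join (av x (dl (Nat.pair 0 (r p.1)))) x)) := by
      refine Rc.table (F := fun (p : ℕ × ℕ) (i : ℕ) =>
        join (av x (dl (Nat.pair 0 (r p.1)))) x i) ?_
        (Rc.of_primrec (Primrec.succ.comp Primrec.snd))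
      exact Rc.comp (f := fun p : ℕ × ℕ => join (av x (dl (Nat.pair 0 (r p.1)))) x p.2)
        (g := fun z : (ℕ × ℕ) × ℕ => (z.1.1, z.2)) hjoin
        (Rc.of_primrec (Primrec.pair (Primrec.fst.comp Primrec.fst) Primrec.snd))
    have h2 := Rc.comp hcL (Rc.prim1 (f := fun l : List Bool => encode l) Primrec.encode h1)
    refine h2.of_eq ?_
    rintro ⟨n, i⟩
    show codeS L (encode (pre (join (av x (dl (Nat.pair 0 (r n)))) x) (i + 1))) =
      Z (join (av x (dl (Nat.pair 0 (r n)))) x) i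
    rw [codeS_encode, hL]
  · have h1 : LeT (join (av x (dl (Nat.pair 0 (r n)))) x) x := by
      rw [leT_iff]
      exact Rc.comp (f := fun p : ℕ × ℕ => join (av x (dl (Nat.pair 0 (r p.1)))) x p.2)
        (g := fun i : ℕ => (n, i)) hjoin (Rc.of_primrec (Primrec.pair (Primrec.const n) Primrec.id))
    have h2 : LeT x (join (av x (dl (Nat.pair 0 (r n)))) x) := hr _ _
    have h3 := hc1 (join (av x (dl (Nat.pair 0 (r n)))) x)
      (leT_trans (leT_trans (hl _ _) hx) h2)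
    exact ⟨leT_trans h3.1 h1, leT_trans h2 h3.2⟩
  · have h1 := Pool.Agent.H72.LUD.pf_AVN x (Nat.pair 0 (r n))
    rw [Nat.unpair_pair] at h1
    rw [hr1 n, ← h1]
    constructor
    · rintro ⟨m, hm⟩
      have h2 : join (av x (dl (Nat.pair 0 (r n)))) x (2 * m) = true := hm
      rw [join_even] at h2
      exact ⟨m, h2⟩
    · rintro ⟨m, hm⟩
      have h2 : join (av x (dl (Nat.pair 0 (r n)))) x (2 * m) = true := by
        rw [join_even]; exact hm
      exact ⟨m, h2⟩

end Pool.Agent.H76.LUD
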