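import Pool.Agent.H76.LUD.Defs

/-!
# Targets of the board lud_modules
-/

set_option autoImplicit false

namespace Pool.Agent.H76.LUD

open Pool.Agent.H69 Pool.Agent.H81.TM

/-- basic facts on nonexpanding maps -/
def T_LIP : Prop :=
  (∀ E : (ℕ → Bool) → (ℕ → Bool), Lip E → Continuous E) ∧
  (∀ E, Lip E → ∃ L : List Bool → Bool, ∀ v n, E v n = L (pre v (n + 1))) ∧
  (∀ E E' : (ℕ → Bool) → (ℕ → Bool), Lip E → Lip E' → Lip (fun v => E (E' v))) ∧
  (∀ (E E' : (ℕ → Bool) → (ℕ → Bool)) (a b a' b' : ℕ), Dec E a b → Dec E' a' b' →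
    Dec (fun v => E (E' v)) (a + b * a') (b * b')) ∧
  (∀ b, Lip (cs b) ∧ Dec (cs b) 1 1) ∧
  (∀ τ, Lip (aI τ) ∧ Dec (aI τ) 1 2) ∧
  (∀ σ, Lip (aII σ) ∧ Dec (aII σ) 0 2)

/-- the payoff sets are in the σ-algebra of `f` -/
def T_MEA : Prop :=
  ∀ (f : (ℕ → Bool) → (ℕ → Bool)) (k : ℕ) (E : (ℕ → Bool) → (ℕ → Bool)) (s : Bool),
    Continuous E → @MeasurableSet (ℕ → Bool) (Gam f) (W f k E s)

/-- one stage: if I wins all the games, `f (E ·) k` is continuous after composition -/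
def T_STG : Prop :=
  ∀ f : (ℕ → Bool) → (ℕ → Bool),
    (∀ (k : ℕ) (E : (ℕ → Bool) → (ℕ → Bool)) (s : Bool), Lip E → (∃ a b, Dec E a b) →
      ∃ τ, ∀ w, aI τ w ∉ W f k E s) →
    ∀ (k : ℕ) (E : (ℕ → Bool) → (ℕ → Bool)), Lip E → (∃ a b, Dec E a b) →
      ∃ G, Lip G ∧ Dec G 3 4 ∧ Continuous (fun v => f (E (G v)) k)

/-- the fusion -/
def T_FUS : Prop :=
  ∀ f : (ℕ → Bool) → (ℕ → Bool),
    (∀ (k : ℕ) (E : (ℕ → Bool) → (ℕ → Bool)), Lip E → (∃ a b, Dec E a b) →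
      ∃ G, Lip G ∧ Dec G 3 4 ∧ Continuous (fun v => f (E (G v)) k)) →
    ∃ y : (ℕ → Bool) → (ℕ → Bool), Lip y ∧ (∀ v n, v n = y v (cn n)) ∧
      Continuous (fun v => f (y v))

/-- the map of the fusion preserves the Turing degree above a code -/
def T_TEQ : Prop :=
  ∀ y : (ℕ → Bool) → (ℕ → Bool), Lip y → (∀ v n, v n = y v (cn n)) →
    ∃ c : ℕ → Bool, ∀ v, EqT (y (join v c)) (join v c)

/-- an everywhere invariant `f` which is continuous along the map of the fusion is constant on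
a cone -/
def T_CST : Prop :=
  ∀ f : (ℕ → Bool) → (ℕ → Bool), (∀ x y, EqT x y → EqM (f x) (f y)) →
    ∀ y : (ℕ → Bool) → (ℕ → Bool), Continuous y → Continuous (fun v => f (y v)) →
      ∀ c : ℕ → Bool, (∀ v, EqT (y (join v c)) (join v c)) →
        ∀ u v, LeT c u → LeT c v → EqM (f u) (f v)

/-- the conclusion of the dichotomy, second case -/
def Alt (f : (ℕ → Bool) → (ℕ → Bool)) : Prop :=
  ∃ (k : ℕ) (s : Bool) (Z : (ℕ → Bool) → (ℕ → Bool)) (a b : ℕ), Lip Z ∧ Dec Z a b ∧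
    ∀ p, (f (Z p) k = s ↔ ∃ n, p (2 * n) = true)

/-- the dichotomy for everywhere invariant `f` -/
def T_DI0 : Prop :=
  ∀ f : (ℕ → Bool) → (ℕ → Bool), (∀ A, @MeasurableSet (ℕ → Bool) (Gam f) A → Determined A) →
    (∀ x y, EqT x y → EqM (f x) (f y)) →
    (∃ c, ∀ x y, LeT c x → LeT c y → EqM (f x) (f y)) ∨ Alt f

/-- the dichotomy -/
def T_DIC : Prop :=
  ∀ (c0 : ℕ → Bool) (f : (ℕ → Bool) → (ℕ → Bool)),
    (∀ A, @MeasurableSet (ℕ → Bool) (Gam f) A → Determined A) →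
    (∀ x y, LeT c0 x → LeT c0 y → EqT x y → EqM (f x) (f y)) →
    (∃ c, ∀ x y, LeT c x → LeT c y → EqM (f x) (f y)) ∨ Alt f

/-- Turing reducibility is given by computable functionals -/
def T_FNC : Prop :=
  ∀ x y : ℕ → Bool, LeT y x → ∃ g : List Bool → ℕ → Option Bool, Computable₂ g ∧ Fn g x y

/-- the shift of the second coordinate and its inverse -/
def T_MSH : Prop :=
  ∃ g h : List Bool → ℕ → Option Bool, Computable₂ g ∧ Computable₂ h ∧
    ∀ X m : ℕ → Bool, Fn g (join X m) (join X (cs false m)) ∧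
      Fn h (join X (cs false m)) (join X m)

/-- decoding of the second coordinate -/
def T_PSB : Prop :=
  ∀ (Z : (ℕ → Bool) → (ℕ → Bool)) (a b : ℕ), Dec Z a b →
    ∃ h : List Bool → ℕ → Option Bool, Computable₂ h ∧ ∀ A z : ℕ → Bool, Fn h (Z (join A z)) z

/-- the digits `av` are primitive recursive in the initial segments -/
def T_AVC : Prop :=
  ∃ q : List Bool → List Bool → ℕ → Bool, Computable (fun p : List Bool × List Bool × ℕ =>
      q p.1 p.2.1 p.2.2) ∧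
    ∀ (x m : ℕ → Bool) (s t : ℕ), s < t → q (pre x t) (pre m t) s = av x m s

/-- the functional `z ↦ Z (join (av x m) z)`, where `z` contains a code of `Z` -/
def T_PSF : Prop :=
  ∀ Z : (ℕ → Bool) → (ℕ → Bool), Lip Z → ∃ d : ℕ → Bool, ∀ c0 : ℕ → Bool,
    ∃ g : List Bool → ℕ → Option Bool, Computable₂ g ∧
      ∀ x m : ℕ → Bool, Fn g (join (join (join c0 d) x) m)
        (Z (join (av x m) (join (join (join c0 d) x) m)))

/-- the digits `av` for the marker `n` -/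
def T_AVN : Prop :=
  ∀ (x : ℕ → Bool) (n : ℕ), (∃ s, av x (dl n) s = true) ↔ Halts x n.unpair.2

/-- computably enumerable sets in `x` are many-one reducible to the halting set -/
def T_CEI : Prop :=
  ∀ x B : ℕ → Bool, CeIn x B → ∃ r : ℕ → ℕ, Computable r ∧ ∀ n, B n = true ↔ Halts x (r n)

/-- simple degree facts -/
def T_DEG : Prop :=
  (∀ c0 d x m : ℕ → Bool, LeT c0 (join (join (join c0 d) x) m)) ∧
  (∀ (X : ℕ → Bool) (n : ℕ), EqT (join X (dl n)) (join X (fun _ => false))) ∧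
  (∀ (c x : ℕ → Bool) (n : ℕ), LeT c x → EqT (join (join c x) (dl n)) x) ∧
  (∀ c d x : ℕ → Bool, LeT (join c d) x → LeT c x)

/-- the main theorem: locally uniform functions -/
def T_LUF : Prop :=
  ∀ (c0 : ℕ → Bool) (f : (ℕ → Bool) → (ℕ → Bool)),
    (∀ A, @MeasurableSet (ℕ → Bool) (Gam f) A → Determined A) → LocUnif c0 f →
    ∃ c, (∀ x y, LeT c x → LeT c y → EqM (f x) (f y)) ∨
      (∀ x, LeT c x → ∀ B, CeIn x B → LeM B (f x)) ∨
      (∀ x, LeT c x → ∀ B, CeIn x B → LeM (compl B) (f x))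

end Pool.Agent.H76.LUD
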